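import Pool.Agent.Helper52.MA.Defs2
import Mathlib.SetTheory.Cardinal.Aleph
import Mathlib.SetTheory.Cardinal.Arithmetic

/-!
# Löwenheim–Skolem reduction of Martin's Axiom to preorders on `Ω`
-/

set_option autoImplicit false

namespace Pool.Agent.Helper52.MA

open Set Pool.Agent.Helper33.HM Pool.Agent.Helper33.HMG Pool.Agent.Helper32.HB

/-- Closure levels. -/
def ls_lev {P ι : Type} (c : P → P → P) (d : ι → P → P) (p0 : P) : ℕ → Set P
  | 0 => {p0}
  | n + 1 => ls_lev c d p0 n ∪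
      (Set.image2 c (ls_lev c d p0 n) (ls_lev c d p0 n) ∪ Set.image2 d Set.univ (ls_lev c d p0 n))

theorem ls_lev_card {P ι : Type} (c : P → P → P) (d : ι → P → P) (p0 : P)
    (hι : Cardinal.mk ι ≤ Cardinal.aleph 1) (n : ℕ) :
    Cardinal.mk (ls_lev c d p0 n) ≤ Cardinal.aleph 1 := by
  have ha : Cardinal.aleph0 ≤ Cardinal.aleph 1 := Cardinal.aleph0_le_aleph 1
  induction n with
  | zero =>
    have : Cardinal.mk (ls_lev c d p0 0) = 1 := Cardinal.mk_singleton p0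
    rw [this]
    exact (Cardinal.one_lt_aleph0.le).trans ha
  | succ n ih =>
    refine (Cardinal.mk_union_le _ _).trans (Cardinal.add_le_of_le ha ih ?_)
    refine (Cardinal.mk_union_le _ _).trans (Cardinal.add_le_of_le ha ?_ ?_)
    · exact (Cardinal.mk_image2_le).trans (Cardinal.mul_le_of_le ha ih ih)
    · refine (Cardinal.mk_image2_le).trans (Cardinal.mul_le_of_le ha ?_ ih)
      rw [Cardinal.mk_univ]
      exact hι

theorem ls_lev_mono {P ι : Type} (c : P → P → P) (d : ι → P → P) (p0 : P) :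
    Monotone (ls_lev c d p0) :=
  monotone_nat_of_le_succ fun _ => Set.subset_union_left

/-- MA-14. Löwenheim–Skolem reduction of MA to posets with underlying set `Ω`. -/
theorem ma1_of_sentence (Ω : Type) [LinearOrder Ω] [WellFoundedLT Ω]
    (hb : ∀ s : Set Ω, s.Countable → ∃ b, ∀ x ∈ s, x < b) (hI : ∀ b : Ω, (Iio b).Countable)
    (hcard : Cardinal.mk Ω = Cardinal.aleph 1)
    (h : MASentence Ω (fun x y => x < y) Set.univ Set.univ) : MA1 := by
  classical
  intro P _ _ hP ι D hι hD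
  obtain ⟨p0⟩ := ‹Nonempty P›
  rcases isEmpty_or_nonempty ι with hι0 | hι0
  · refine ⟨{q | p0 ≤ q}, ⟨p0, le_refl p0⟩, fun p hp q hq => le_trans hp hq, ?_, fun i => ?_⟩
    · intro p hp q hq
      exact ⟨p0, le_refl p0, hp, hq⟩
    · exact (hι0.false i).elim
  have hc : ∀ p q : P, ∃ r : P, (∃ s : P, s ≤ p ∧ s ≤ q) → r ≤ p ∧ r ≤ q := by
    intro p q
    by_cases hs : ∃ s : P, s ≤ p ∧ s ≤ q
    · obtain ⟨s, h1⟩ := hs
      exact ⟨s, fun _ => h1⟩
    · exact ⟨p, fun h' => (hs h').elim⟩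
  choose c hc using hc
  have hd : ∀ (i : ι) (p : P), ∃ q : P, q ∈ D i ∧ q ≤ p := fun i p => hD i p
  choose d hd1 hd2 using hd
  set Q : Set P := ⋃ n, ls_lev c d p0 n with hQ
  have hQcard : Cardinal.mk Q ≤ Cardinal.mk Ω := by
    rw [hcard, hQ]
    refine (Cardinal.mk_iUnion_le _).trans ?_
    refine Cardinal.mul_le_of_le (Cardinal.aleph0_le_aleph 1) ?_ ?_
    · rw [Cardinal.mk_nat]
      exact Cardinal.aleph0_le_aleph 1
    · exact ciSup_le' fun n => ls_lev_card c d p0 hι n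
  have hQ0 : p0 ∈ Q := Set.mem_iUnion.2 ⟨0, rfl⟩
  have hQc : ∀ p ∈ Q, ∀ q ∈ Q, c p q ∈ Q := by
    intro p hp q hq
    obtain ⟨m, hm⟩ := Set.mem_iUnion.1 hp
    obtain ⟨n, hn⟩ := Set.mem_iUnion.1 hq
    refine Set.mem_iUnion.2 ⟨max m n + 1, Or.inr (Or.inl ?_)⟩
    exact Set.mem_image2_of_mem (ls_lev_mono c d p0 (le_max_left m n) hm)
      (ls_lev_mono c d p0 (le_max_right m n) hn)
  have hQd : ∀ (i : ι), ∀ p ∈ Q, d i p ∈ Q := by
    intro i p hp
    obtain ⟨m, hm⟩ := Set.mem_iUnion.1 hp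
    exact Set.mem_iUnion.2 ⟨m + 1, Or.inr (Or.inr (Set.mem_image2_of_mem (Set.mem_univ i) hm))⟩
  haveI : Nonempty Q := ⟨⟨p0, hQ0⟩⟩
  obtain ⟨f⟩ := (Cardinal.le_def Q Ω).1 hQcard
  obtain ⟨e'⟩ := (Cardinal.le_def ι Ω).1 (hι.trans hcard.ge)
  set π : Ω → Q := Function.invFun f with hπ
  have hπs : Function.Surjective π := Function.invFun_surjective f.injective
  set e : Ω → ι := Function.invFun e' with he
  have hes : Function.Surjective e := Function.invFun_surjective e'.injective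
  obtain ⟨G, -, hG1, hG2, hG3⟩ := h (fun x y => (π x : P) ≤ π y) (Set.mem_univ _)
    (fun a y => (π y : P) ∈ D (e a)) (Set.mem_univ _) (fun x => le_refl _)
    (fun x y z h1 h2 => le_trans h1 h2)
    (by
      intro A _ hA
      apply hb
      have hinj : Set.InjOn (fun x => (π x : P)) A := by
        intro x hx y hy hxy
        by_contra hne
        refine hA x hx y hy hne ⟨x, le_refl _, ?_⟩
        exact le_of_eq hxy
      refine Set.countable_of_injective_of_countable_image hinj ?_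
      apply hP
      rintro _ ⟨x, hx, rfl⟩ _ ⟨y, hy, rfl⟩ hne hr
      have hxy : x ≠ y := fun h' => hne (by rw [h'])
      obtain ⟨z, hz⟩ := hπs ⟨c (π x) (π y), hQc _ (π x).2 _ (π y).2⟩
      refine hA x hx y hy hxy ⟨z, ?_, ?_⟩
      · show (π z : P) ≤ π x
        rw [hz]
        exact (hc _ _ hr).1
      · show (π z : P) ≤ π y
        rw [hz]
        exact (hc _ _ hr).2)
    (by
      intro a x
      obtain ⟨y, hy⟩ := hπs ⟨d (e a) (π x), hQd _ _ (π x).2⟩
      refine ⟨y, ?_, ?_⟩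
      · show (π y : P) ≤ π x
        rw [hy]
        exact hd2 _ _
      · show (π y : P) ∈ D (e a)
        rw [hy]
        exact hd1 _ _)
  refine ⟨{p | ∃ x ∈ G, (π x : P) ≤ p}, ?_, ?_, ?_, ?_⟩
  · obtain ⟨a, _⟩ := hes hι0.some
    obtain ⟨x, hx, _⟩ := hG3 a
    exact ⟨π x, x, hx, le_refl _⟩
  · rintro p ⟨x, hx, hxp⟩ q hpq
    exact ⟨x, hx, le_trans hxp hpq⟩
  · rintro p ⟨x, hx, hxp⟩ q ⟨y, hy, hyq⟩
    obtain ⟨z, hz, hzx, hzy⟩ := hG2 x hx y hy
    exact ⟨π z, ⟨z, hz, le_refl _⟩, le_trans hzx hxp, le_trans hzy hyq⟩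
  · intro i
    obtain ⟨a, rfl⟩ := hes i
    obtain ⟨x, hx, hxD⟩ := hG3 a
    exact ⟨π x, ⟨x, hx, le_refl _⟩, hxD⟩

end Pool.Agent.Helper52.MA
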